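import Pool.Agent.Helper70.QA.Rep

/-!
# Project AUT (S00834), block A: module and group action instances on `QHom A B`
-/

set_option autoImplicit false

namespace QA70

variable {A B C : QRep}

/-- `kᵐᵒᵖ` acts on `QHom A B` as `k`. -/
instance instModOp : Module kᵐᵒᵖ (QHom A B) where
  smul t f := t.unop • f
  one_smul f := one_smul k f
  mul_smul s t f := by
    show (s * t).unop • f = s.unop • t.unop • f
    rw [MulOpposite.unop_mul, mul_comm, mul_smul]
  smul_zero t := smul_zero t.unop
  smul_add t f g := smul_add t.unop f g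
  add_smul s t f := add_smul s.unop t.unop f
  zero_smul f := zero_smul k f

instance : IsCentralScalar k (QHom A B) := ⟨fun _ _ => rfl⟩

/-- Endomorphisms of `B` act on `QHom A B` by composition. -/
instance instModEnd : Module (QHom B B) (QHom A B) where
  smul g f := g.comp f
  one_smul f := QHom.id_comp f
  mul_smul _ _ _ := rfl
  smul_zero g := QHom.comp_zero g
  smul_add g f f' := QHom.comp_add g f f'
  add_smul g g' f := QHom.add_comp g g' f
  zero_smul f := QHom.zero_comp f

theorem end_smul_def (g : QHom B B) (f : QHom A B) : g • f = g.comp f := rfl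

/-- Automorphisms of `A` act on `QHom A B` by `u • f = f ∘ u⁻¹`. -/
instance instActAut : DistribMulAction (QHom A A)ˣ (QHom A B) where
  smul u f := f.comp ((u⁻¹ : (QHom A A)ˣ) : QHom A A)
  one_smul f := by
    show f.comp (((1 : (QHom A A)ˣ)⁻¹ : (QHom A A)ˣ) : QHom A A) = f
    rw [inv_one]
    exact QHom.comp_id f
  mul_smul u v f := by
    show f.comp (((u * v)⁻¹ : (QHom A A)ˣ) : QHom A A) =
      (f.comp ((v⁻¹ : (QHom A A)ˣ) : QHom A A)).comp ((u⁻¹ : (QHom A A)ˣ) : QHom A A)
    rw [mul_inv_rev]
    rfl
  smul_zero u := QHom.zero_comp _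
  smul_add u f g := QHom.add_comp f g _

theorem aut_smul_def (u : (QHom A A)ˣ) (f : QHom A B) :
    u • f = f.comp ((u⁻¹ : (QHom A A)ˣ) : QHom A A) := rfl

theorem aut_end_comm (u : (QHom A A)ˣ) (g : QHom B B) (f : QHom A B) :
    u • g • f = g • u • f := rfl

end QA70
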