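import Pool.Agent.Helper43.QK.Str
import Pool.Agent.Helper43.QK.Inst
import Pool.Agent.Helper43.QN.Stage
import Pool.Agent.Helper70.QA.Inj
import Pool.Agent.Helper70.QA.DecQ

/-!
# Project AUT (S00834), block A: the rings `A0 = k + J → End R`, `A0 → BB`, and `BB → MM`

`J = Hom(Tp, X)`.
-/

set_option autoImplicit false

namespace QA70

open QN43

/-- `J = Hom(Tp, X)` -/
abbrev Jt : Type := QHom Tp X

theorem k_cases (c : k) : c = 0 ∨ c = 1 := by
  revert c
  decide

theorem TTp_zero : TTp 0 = 0 := by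
  have h := TTp_add 0 0
  rw [add_zero] at h
  exact (left_eq_add.1 h)

theorem TTp_smul_one (c : k) : TTp (c • (1 : MM)) = c • (1 : QHom Tp Tp) := by
  rcases k_cases c with rfl | rfl
  · rw [zero_smul, zero_smul, TTp_zero]
  · rw [one_smul, one_smul, TTp_one]

/-- the ring homomorphism `A0 → BB`, `c + η ↦ (c, η, c)` -/
noncomputable def iota : A0 Jt →+* BB where
  toFun a := mkBB a.fst a.snd (a.fst • (1 : MM))
  map_one' := by
    rw [TrivSqZeroExt.fst_one, TrivSqZeroExt.snd_one, one_smul, mkBB_one]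
  map_mul' a b := by
    rw [mkBB_mul, TrivSqZeroExt.fst_mul, TrivSqZeroExt.snd_mul, TTp_smul_one]
    congr 1
    · rw [QHom.comp_smul]
      congr 1
    · rw [QHom.smul_mul, QHom.mul_smul', one_mul_one_eq]
      rw [smul_smul]
  map_zero' := by
    rw [TrivSqZeroExt.fst_zero, TrivSqZeroExt.snd_zero, zero_smul]
    apply hom_Rp_ext
    · rw [pX_mkBB, zero_smul, QHom.zero_comp, add_zero, QHom.comp_zero]
    · rw [pT_mkBB, TTp_zero, QHom.zero_comp, QHom.comp_zero]
  map_add' a b := by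
    rw [mkBB_add, TrivSqZeroExt.fst_add, TrivSqZeroExt.snd_add, add_smul]
where
  one_mul_one_eq : (1 : MM) * 1 = 1 := one_mul 1

theorem iota_apply (a : A0 Jt) : iota a = mkBB a.fst a.snd (a.fst • (1 : MM)) := rfl

theorem iota_injective : Function.Injective iota := by
  intro a b h
  obtain ⟨h1, h2, _⟩ := mkBB_inj h
  exact TrivSqZeroExt.ext h1 h2

/-! ### the restriction `End R → BB` -/

/-- the comparison `R → Rp` -/
noncomputable def toRp : QHom R Rp where
  f0 := 0
  f1 := LinearMap.id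
  f2 := LinearMap.id
  f3 := LinearMap.id
  f4 := LinearMap.id
  hb _ _ := rfl
  hr _ := rfl
  hlam _ := rfl
  hal _ := rfl
  ha _ _ _ := rfl
  hc _ _ _ := rfl
  hu _ _ := rfl

/-- the restriction of an endomorphism of `R` to `Rp` -/
noncomputable def res (f : AA) : BB where
  f0 := 0
  f1 := f.f1
  f2 := f.f2
  f3 := f.f3
  f4 := f.f4
  hb := f.hb
  hr := f.hr
  hlam _ := rfl
  hal _ := rfl
  ha := f.ha
  hc := f.hc
  hu := f.hu

theorem toRp_comp (f : AA) : toRp.comp f = (res f).comp toRp :=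
  QHom.ext rfl rfl rfl rfl rfl

theorem AA_f0 (f : AA) : f.f0 = f.f1 := LinearMap.ext f.hlam

theorem res_injective : Function.Injective res := by
  intro f g h
  have h1 : f.f1 = g.f1 := congrArg (fun b : BB => b.f1) h
  exact QHom.ext (by rw [AA_f0, AA_f0, h1]) h1 (congrArg (fun b : BB => b.f2) h)
    (congrArg (fun b : BB => b.f3) h) (congrArg (fun b : BB => b.f4) h)

theorem res_mul (f g : AA) : res (f * g) = res f * res g :=
  QHom.ext (FM.to_Z_eq _ _) rfl rfl rfl rfl
theorem res_one : res 1 = 1 := QHom.ext (FM.to_Z_eq _ _) rfl rfl rfl rfl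
theorem res_add (f g : AA) : res (f + g) = res f + res g :=
  QHom.ext (FM.to_Z_eq _ _) rfl rfl rfl rfl
theorem res_zero : res 0 = 0 := QHom.ext rfl rfl rfl rfl rfl

theorem mkBB_f1 (c : k) (η : Jt) (γ : MM) (x : X1) (t : T1) :
    (mkBB c η γ).f1 (FM.mk x t : R1) = (FM.mk (c • x + η.f1 t) (t1 γ t) : R1) := by
  show c • (FM.mk x 0 : R1) + FM.mk (η.f1 t) 0 + FM.mk 0 (t1 γ t) = _
  rw [FM.smul_mk, FM.mk_add_mk, FM.mk_add_mk, smul_zero, add_zero, add_zero, zero_add]

theorem mkBB_f2 (c : k) (η : Jt) (γ : MM) (x : X1) (t : T2) :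
    (mkBB c η γ).f2 (FM.mk x t : R2) = (FM.mk (c • x + η.f2 t) (t2 γ t) : R2) := by
  show c • (FM.mk x 0 : R2) + FM.mk (η.f2 t) 0 + FM.mk 0 (t2 γ t) = _
  rw [FM.smul_mk, FM.mk_add_mk, FM.mk_add_mk, smul_zero, add_zero, add_zero, zero_add]

theorem t1_smul_one (c : k) (t : T1) : t1 (c • (1 : MM)) t = c • t := by
  have h := congrArg QHom.f1 (TTp_smul_one c)
  exact LinearMap.congr_fun h t

theorem t2_smul_one (c : k) (t : T2) : t2 (c • (1 : MM)) t = c • t := by
  have h := congrArg QHom.f2 (TTp_smul_one c)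
  exact LinearMap.congr_fun h t

theorem alR_mk (x : X1) (q : T2) : alR (FM.mk x q : R2) = (FM.mk (j2 q) 0 : R1) := rfl

/-- the endomorphism `c + η` of `R` -/
noncomputable def mkAA (a : A0 Jt) : AA where
  f0 := (iota a).f1
  f1 := (iota a).f1
  f2 := (iota a).f2
  f3 := (iota a).f3
  f4 := (iota a).f4
  hb := (iota a).hb
  hr := (iota a).hr
  hlam _ := rfl
  hal y := by
    obtain ⟨x, q, rfl⟩ := FM.prod_cases y
    show (iota a).f1 (alR (FM.mk x q : R2)) = alR ((iota a).f2 (FM.mk x q : R2))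
    rw [iota_apply, mkBB_f2, alR_mk, alR_mk, mkBB_f1, map_zero, map_zero, add_zero, t2_smul_one,
      map_smul]
  ha := (iota a).ha
  hc := (iota a).hc
  hu := (iota a).hu

theorem res_mkAA (a : A0 Jt) : res (mkAA a) = iota a :=
  QHom.ext (FM.to_Z_eq _ _) rfl rfl rfl rfl

/-- the ring homomorphism `A0 → End R` -/
noncomputable def iotaA : A0 Jt →+* AA where
  toFun := mkAA
  map_one' := res_injective (by rw [res_mkAA, res_one, map_one])
  map_mul' a b := res_injective (by rw [res_mul, res_mkAA, res_mkAA, res_mkAA, map_mul])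
  map_zero' := res_injective (by rw [res_mkAA, res_zero, map_zero])
  map_add' a b := res_injective (by rw [res_add, res_mkAA, res_mkAA, res_mkAA, map_add])

theorem res_iotaA (a : A0 Jt) : res (iotaA a) = iota a := res_mkAA a

theorem iotaA_f1 (a : A0 Jt) (x : X1) (t : T1) :
    (iotaA a).f1 (FM.mk x t : R1) = (FM.mk (a.fst • x + a.snd.f1 t) (a.fst • t) : R1) := by
  show (iota a).f1 _ = _
  rw [iota_apply, mkBB_f1, t1_smul_one]

theorem q2_mk00 (γ : MM) (x : Mb.P) : q2 γ (Q2.mk 0 0 x) = Q2.mk 0 0 ((bar γ).diag x) := by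
  have h1 : i0 (γ.f0 (vM0 0)) = 0 := by rw [map_zero, map_zero, map_zero]
  have h2 : γ.f2 0 = 0 := map_zero _
  rw [q2_mk, h1, h2, Q2.mk_zero, add_zero, zero_add]

/-- `MM` acts faithfully on `T_2` -/
theorem t2_injective {γ δ : MM} (h : t2 γ = t2 δ) : γ = δ := by
  have hq : q2 γ = q2 δ := by
    ext y
    have h1 := congrArg (fun f : T2 →ₗ[k] T2 => FM.proj 0 (f (cp2 0 y))) h
    simp only [t2_cp] at h1
    have h2 : ∀ z : Q2, FM.proj 0 (cp2 0 z) = z := fun z => FM.proj_single_same 0 z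
    rw [h2, h2] at h1
    exact h1
  have hb : bar γ = bar δ := by
    apply diag_inj
    ext x
    have h1 := LinearMap.congr_fun hq (Q2.mk 0 0 x)
    rw [q2_mk00, q2_mk00] at h1
    exact (Q2.mk_inj.1 h1).2.2
  have h0 : γ.f0 = δ.f0 := by
    ext x
    apply i0_injective
    rw [← q2_i0, ← q2_i0, hq]
  have e1 : γ.f1 = δ.f1 := congrArg (fun f : QHom Mb Mb => f.f1) hb
  have e2 : γ.f2 = δ.f2 := congrArg (fun f : QHom Mb Mb => f.f2) hb
  have e3 : γ.f3 = δ.f3 := congrArg (fun f : QHom Mb Mb => f.f3) hb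
  have e4 : γ.f4 = δ.f4 := congrArg (fun f : QHom Mb Mb => f.f4) hb
  exact QHom.ext h0 e1 e2 e3 e4

theorem j2_injective : Function.Injective j2 := by
  intro x y h
  have h1 : T.in2 x = T.in2 y := FM.single_inj h
  rw [QRep.in2_apply, QRep.in2_apply] at h1
  exact ((T.tmk_inj).1 h1).2.2.1

/-- every endomorphism of `R` comes from `A0` -/
theorem iotaA_surjective : Function.Surjective iotaA := by
  intro f
  obtain ⟨c, η, γ, hb⟩ := BB_cases (res f)
  have h1 : t2 γ = t2 (c • (1 : MM)) := by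
    ext q
    apply j2_injective
    have h2 := f.hal (FM.mk 0 q : R2)
    rw [AA_f0] at h2
    have h3 : f.f1 = (res f).f1 := rfl
    have h4 : f.f2 = (res f).f2 := rfl
    have h5 : (res f).f1 (alR (FM.mk 0 q : R2)) = alR ((res f).f2 (FM.mk 0 q : R2)) := h2
    rw [hb, mkBB_f2, alR_mk, alR_mk, mkBB_f1] at h5
    have h6 := (FM.mk_inj.1 h5).1
    rw [map_zero, add_zero] at h6
    rw [← h6, t2_smul_one, map_smul]
  have h2 := t2_injective h1
  refine ⟨TrivSqZeroExt.inl c + TrivSqZeroExt.inr η, res_injective ?_⟩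
  rw [res_iotaA, iota_apply, hb, h2]
  congr 1
  · simp
  · simp
  · simp

theorem iotaA_injective : Function.Injective iotaA := by
  intro a b h
  apply iota_injective
  rw [← res_iotaA, ← res_iotaA, h]

/-! ### the quotient `BB → MM` -/

/-- the map `BB → MM`, `(c, η, γ) ↦ γ` -/
noncomputable def piM0 (b : BB) : MM := (BB_cases b).choose_spec.choose_spec.choose

theorem piM0_mk (c : k) (η : Jt) (γ : MM) : piM0 (mkBB c η γ) = γ :=
  ((mkBB_inj (BB_cases (mkBB c η γ)).choose_spec.choose_spec.choose_spec).2.2).symm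

theorem mkBB_zero : mkBB 0 0 0 = 0 := by
  have h := iota.map_zero
  rw [iota_apply, TrivSqZeroExt.fst_zero, TrivSqZeroExt.snd_zero, zero_smul] at h
  exact h

/-- the ring homomorphism `BB → MM`, `(c, η, γ) ↦ γ` -/
noncomputable def piM : BB →+* MM where
  toFun := piM0
  map_one' := by rw [← mkBB_one, piM0_mk]
  map_mul' a b := by
    obtain ⟨c, η, γ, rfl⟩ := BB_cases a
    obtain ⟨c', η', γ', rfl⟩ := BB_cases b
    rw [mkBB_mul, piM0_mk, piM0_mk, piM0_mk]
  map_zero' := by rw [← mkBB_zero, piM0_mk]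
  map_add' a b := by
    obtain ⟨c, η, γ, rfl⟩ := BB_cases a
    obtain ⟨c', η', γ', rfl⟩ := BB_cases b
    rw [mkBB_add, piM0_mk, piM0_mk, piM0_mk]

@[simp] theorem piM_mk (c : k) (η : Jt) (γ : MM) : piM (mkBB c η γ) = γ := piM0_mk c η γ

/-! ### the `A0`-modules `E = R_1` and `W = Hom(M, R)` -/

/-- `End R → End R_1` -/
noncomputable def endR1 : AA →+* Module.End k R1 where
  toFun f := f.f1
  map_one' := rfl
  map_mul' _ _ := rfl
  map_zero' := rfl
  map_add' _ _ := rfl

/-- `A0` acts on `E = R_1` -/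
noncomputable instance instModE : Module (A0 Jt) R1 := Module.compHom R1 (endR1.comp iotaA)

theorem smulE_def (a : A0 Jt) (x : R1) : a • x = (iotaA a).f1 x := rfl

/-- `A0` acts on `W = Hom(M, R)` -/
noncomputable instance instModW : Module (A0 Jt) (QHom M R) := Module.compHom (QHom M R) iotaA

theorem smulW_def (a : A0 Jt) (f : QHom M R) : a • f = (iotaA a).comp f := rfl

end QA70
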