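import Pool.Agent.Helper43.QK.Norm
import Pool.Agent.Helper58.AU.Norm7b
import Pool.Agent.Helper97.QO.LFa
import Pool.Agent.Helper43.QN.Final

/-!
# Project AUT (S00834): all the pieces together
-/

set_option autoImplicit false

namespace QA70

open QN43

theorem shape : Shape := fun e he γ h => norm7 e he γ h

theorem span7' : Span7 := by
  intro P hP
  rw [eq_top_iff, ← span7]
  rw [AddSubgroup.closure_le]
  rintro f ⟨γ, u, rfl⟩
  exact hP γ u

/-- **Automorphism towers of finite groups are not bounded by a function of the order.** -/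
theorem tower_unbounded :
    ¬ (∃ f : ℕ → ℕ, ∀ (G : Type) [Group G] [Finite G], ∀ i : ℕ,
      Nat.card ((fun H : GrpCat => GrpCat.of (MulAut H))^[i] (GrpCat.of G)) ≤ f (Nat.card G)) :=
  main_of_l (QO97.lfacts_of pN pN_surjective phiP_field (kerSq_field shape)
    (perfN_field shape span7'))

end QA70
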