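import Pool.Agent.Helper43.QK.Iota
import Pool.Agent.Helper88.QF.Hat
import Pool.Agent.Helper97.QO.Main

/-!
# Project AUT (S00834), block A: the normaliser `NN0 iota R1` and the map `p : NN0 → O`
-/

set_option autoImplicit false

namespace QA70

open QN43

/-- the evaluation `BB → End R_1` -/
noncomputable def eOf : BB →+* AddMonoid.End R1 where
  toFun b := b.f1.toAddMonoidHom
  map_one' := rfl
  map_mul' _ _ := rfl
  map_zero' := rfl
  map_add' _ _ := rfl

theorem eOf_apply (b : BB) (x : R1) : eOf b x = b.f1 x := rfl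

theorem smulE_eOf (a : A0 Jt) (x : R1) : a • x = eOf (iota a) x := rfl

/-- `γ ↦ (1, 0, γ)` -/
noncomputable def mkM : MM →* BB where
  toFun γ := mkBB 1 0 γ
  map_one' := mkBB_one
  map_mul' γ δ := by
    rw [mkBB_mul, mul_one, QHom.zero_comp, smul_zero, add_zero]

theorem mkM_apply (γ : MM) : mkM γ = mkBB 1 0 γ := rfl

/-- a unit of `BB` is `(1, η, γ)` with `γ` a unit -/
theorem unit_cases (b : BBˣ) :
    ∃ η : Jt, (b : BB) = mkBB 1 η ((Units.map piM.toMonoidHom b : OO) : MM) := by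
  obtain ⟨c, η, γ, hb⟩ := BB_cases (b : BB)
  have hγ : ((Units.map piM.toMonoidHom b : OO) : MM) = γ := by
    show piM (b : BB) = γ
    rw [hb, piM_mk]
  have hc : c = 1 := by
    rcases k_cases c with h | h
    · exfalso
      obtain ⟨c', η', γ', hb'⟩ := BB_cases ((b⁻¹ : BBˣ) : BB)
      have h1 : (b : BB) * ((b⁻¹ : BBˣ) : BB) = 1 := Units.mul_inv b
      rw [hb, hb', mkBB_mul, ← mkBB_one] at h1
      have h2 := (mkBB_inj h1).1
      rw [h, zero_mul] at h2
      exact zero_ne_one h2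
    · exact h
  refine ⟨η, ?_⟩
  rw [hγ, hb, hc]

/-- the action of `O` on `A0` -/
noncomputable def twist (γ : OO) (a : A0 Jt) : A0 Jt :=
  TrivSqZeroExt.inl a.fst + TrivSqZeroExt.inr (a.snd.comp (TTp ((γ⁻¹ : OO) : MM)))

@[simp] theorem twist_fst (γ : OO) (a : A0 Jt) : (twist γ a).fst = a.fst := by
  simp [twist]
@[simp] theorem twist_snd (γ : OO) (a : A0 Jt) :
    (twist γ a).snd = a.snd.comp (TTp ((γ⁻¹ : OO) : MM)) := by
  simp [twist]

theorem twist_twist (γ : OO) (a : A0 Jt) : twist γ (twist γ⁻¹ a) = a := by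
  apply TrivSqZeroExt.ext
  · rw [twist_fst, twist_fst]
  · rw [twist_snd, twist_snd, inv_inv, QHom.comp_assoc]
    have h : (TTp (γ : MM)).comp (TTp ((γ⁻¹ : OO) : MM)) = QHom.idh Tp := by
      have h1 := TTp_mul (γ : MM) ((γ⁻¹ : OO) : MM)
      rw [Units.mul_inv, TTp_one] at h1
      exact h1.symm
    rw [h, QHom.comp_id]

theorem conj_iota (b : BBˣ) (a : A0 Jt) :
    (b : BB) * iota a = iota (twist (Units.map piM.toMonoidHom b) a) * (b : BB) := by
  obtain ⟨η, hb⟩ := unit_cases b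
  set γ : OO := Units.map piM.toMonoidHom b with hγ
  rw [hb, iota_apply, iota_apply, mkBB_mul, mkBB_mul, twist_fst, twist_snd, QHom.comp_assoc]
  have h : (TTp ((γ⁻¹ : OO) : MM)).comp (TTp (γ : MM)) = QHom.idh Tp := by
    have h1 := TTp_mul ((γ⁻¹ : OO) : MM) (γ : MM)
    rw [Units.inv_mul, TTp_one] at h1
    exact h1.symm
  rw [h, QHom.comp_id, one_mul, mul_one, one_smul, TTp_smul_one, QHom.comp_smul,
    QHom.mul_smul', QHom.smul_mul, one_mul, mul_one, add_comm]
  rfl

theorem rel0_of_conj (b : BBˣ) (a a' : A0 Jt) (h : (b : BB) * iota a = iota a' * (b : BB)) :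
    Rel0 iota R1 (Units.map eOf.toMonoidHom b, b) a a' := by
  refine ⟨fun x => ?_, h⟩
  show eOf (b : BB) (eOf (iota a) x) = eOf (iota a') (eOf (b : BB) x)
  have h1 := congrArg (fun g : BB => eOf g x) h
  exact h1

/-- units of `BB` in the normaliser -/
noncomputable def sec : BBˣ →* NN0 iota R1 where
  toFun b := ⟨(Units.map eOf.toMonoidHom b, b), by
    refine ⟨fun a => ⟨_, rel0_of_conj b a _ (conj_iota b a)⟩, fun a =>
      ⟨twist (Units.map piM.toMonoidHom b)⁻¹ a, rel0_of_conj b _ a ?_⟩⟩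
    rw [conj_iota, twist_twist]⟩
  map_one' := by
    apply Subtype.ext
    simp
  map_mul' a b := by
    apply Subtype.ext
    simp

/-- the map `p : NN0 → O` -/
noncomputable def pN : NN0 iota R1 →* OO :=
  (Units.map piM.toMonoidHom).comp ((MonoidHom.snd _ _).comp (NN0 iota R1).subtype)

theorem pN_apply (n : NN0 iota R1) : pN n = Units.map piM.toMonoidHom n.1.2 := rfl

theorem pN_surjective : Function.Surjective pN := by
  intro γ
  refine ⟨sec (Units.map mkM γ), ?_⟩
  ext1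
  show piM (mkM (γ : MM)) = γ
  rw [mkM_apply, piM_mk]

/-- in `NN0` the element `a'` is determined -/
theorem rel0_eq (n : NN0 iota R1) (a a' : A0 Jt) (h : Rel0 iota R1 n.1 a a') :
    a' = twist (pN n) a := by
  have h1 := h.2
  rw [conj_iota] at h1
  have h2 := congrArg (fun g : BB => g * ((n.1.2⁻¹ : BBˣ) : BB)) h1
  simp only [mul_assoc, Units.mul_inv, mul_one] at h2
  exact (iota_injective h2).symm

theorem phiP_field (n : NN0 iota R1) (j j' : Jt)
    (h : Rel0 iota R1 n.1 (TrivSqZeroExt.inr j) (TrivSqZeroExt.inr j')) (i : Fin 15) :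
    QF88.Phi j' i = pN n • QF88.Phi j i := by
  have h1 := rel0_eq n _ _ h
  have h2 := congrArg TrivSqZeroExt.snd h1
  rw [twist_snd, TrivSqZeroExt.snd_inr, TrivSqZeroExt.snd_inr] at h2
  rw [h2, QF88.Phi_comp]
  rfl

theorem mk_eta1 (y : R1) : ∃ x t, y = (FM.mk x t : R1) := FM.prod_cases y

/-- the hypothesis of `norm7` -/
theorem norm7_hyp (n : NN0 iota R1) (η : Jt) (y : R1) :
    (n.1.1 : AddMonoid.End R1) (FM.mk (η.f1 (FM.snd y)) 0 : R1) =
      (FM.mk (η.f1 (t1 ((((pN n)⁻¹ : OO)) : MM)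
        (FM.snd ((n.1.1 : AddMonoid.End R1) y)))) 0 : R1) := by
  obtain ⟨a', ha⟩ := n.2.1 (TrivSqZeroExt.inr η)
  have h1 := rel0_eq n _ _ ha
  have h2 := ha.1 y
  obtain ⟨x, t, hy⟩ := mk_eta1 y
  have h3 : (TrivSqZeroExt.inr η : A0 Jt) • y = (FM.mk (η.f1 (FM.snd y)) 0 : R1) := by
    rw [smulE_def, hy, iotaA_f1, TrivSqZeroExt.fst_inr, TrivSqZeroExt.snd_inr, zero_smul,
      zero_smul, zero_add]
    rfl
  rw [h3] at h2
  rw [h2, h1]
  obtain ⟨x', t', hy'⟩ := mk_eta1 ((n.1.1 : AddMonoid.End R1) y)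
  rw [hy', smulE_def, iotaA_f1, twist_fst, twist_snd, TrivSqZeroExt.fst_inr,
    TrivSqZeroExt.snd_inr, zero_smul, zero_smul, zero_add]
  rfl

theorem unit_injective {M : Type} [AddCommGroup M] (e : (AddMonoid.End M)ˣ) :
    Function.Injective (e : AddMonoid.End M) := by
  intro x y h
  have h1 : ∀ z : M, ((e⁻¹ : (AddMonoid.End M)ˣ) : AddMonoid.End M)
      ((e : AddMonoid.End M) z) = z := fun z => by
    have := congrArg (fun g : AddMonoid.End M => g z) (Units.inv_mul e)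
    exact this
  rw [← h1 x, h, h1 y]

/-- the shape of the elements of `NN0` -/
def Shape : Prop := ∀ (e : R1 →+ R1), Function.Injective e → ∀ γ : OO,
    (∀ (η : Jt) (y : R1), e (FM.mk (η.f1 (FM.snd y)) 0 : R1) =
      (FM.mk (η.f1 (t1 ((γ⁻¹ : OO) : MM) (FM.snd (e y)))) 0 : R1)) →
    ∃ h : T1 →+ X1, ∀ x t, e (FM.mk x t : R1) = (FM.mk (x + h t) (t1 (γ : MM) t) : R1)

/-- no coinvariants on `Hom(T_1, X_1)` -/
def Span7 : Prop := ∀ P : AddSubgroup (T1 →+ X1),
    (∀ (γ : OO) (h : T1 →+ X1), h.comp (t1 (γ : MM)).toAddMonoidHom - h ∈ P) → P = ⊤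

theorem shape_n (hS : Shape) (n : NN0 iota R1) : ∃ h : T1 →+ X1, ∀ x t,
    (n.1.1 : AddMonoid.End R1) (FM.mk x t : R1) = (FM.mk (x + h t) (t1 ((pN n : OO) : MM) t) : R1) :=
  hS (n.1.1 : AddMonoid.End R1) (unit_injective n.1.1) (pN n) (norm7_hyp n)

theorem add_self_FM (A : FM) (x : A) : x + x = 0 := by
  have h : (2 : k) • x = 0 := by
    rw [show (2 : k) = 0 from rfl, zero_smul]
  rwa [two_smul] at h

theorem add_self_QHom {A B : QRep} (f : QHom A B) : f + f = 0 := by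
  have h : (2 : k) • f = 0 := by
    rw [show (2 : k) = 0 from rfl, zero_smul]
  rwa [two_smul] at h

theorem kerSq_field (hS : Shape) (n : NN0 iota R1) (hn : pN n = 1) : n * n = 1 := by
  obtain ⟨h, hh⟩ := shape_n hS n
  obtain ⟨η, hb⟩ := unit_cases n.1.2
  have hn' : ((Units.map piM.toMonoidHom n.1.2 : OO) : MM) = 1 := by
    rw [← pN_apply, hn]; rfl
  apply Subtype.ext
  refine Prod.ext ?_ ?_
  · ext1
    apply AddMonoidHom.ext
    intro y
    obtain ⟨x, t, rfl⟩ := mk_eta1 y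
    show (n.1.1 : AddMonoid.End R1) ((n.1.1 : AddMonoid.End R1) (FM.mk x t)) = FM.mk x t
    rw [hh, hh, hn]
    show (FM.mk (x + h t + h (t1 (1 : MM) t)) (t1 (1 : MM) (t1 (1 : MM) t)) : R1) = FM.mk x t
    rw [t1_one]
    show (FM.mk (x + h t + h t) t : R1) = FM.mk x t
    rw [add_assoc, add_self_FM, add_zero]
  · ext1
    show (n.1.2 : BB) * (n.1.2 : BB) = 1
    rw [hb, hn', mkBB_mul, one_smul, TTp_one, one_mul, one_mul]
    have h1 : η + η.comp (1 : QHom Tp Tp) = 0 := by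
      have h2 : η.comp (1 : QHom Tp Tp) = η := QHom.comp_id η
      rw [h2, add_self_QHom]
    rw [h1, mkBB_one]

/-! ### shears -/

/-- the shear `(x, t) ↦ (x + h t, t)` -/
noncomputable def shr (h : T1 →+ X1) : AddMonoid.End R1 where
  toFun y := FM.mk (FM.fst y + h (FM.snd y)) (FM.snd y)
  map_zero' := by
    rw [map_zero, map_zero, map_zero, add_zero]
    rfl
  map_add' y z := by
    rw [map_add, map_add, map_add, FM.mk_add_mk]
    congr 1
    abel

theorem shr_mk (h : T1 →+ X1) (x : X1) (t : T1) :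
    shr h (FM.mk x t : R1) = (FM.mk (x + h t) t : R1) := rfl

theorem shr_mul (h h' : T1 →+ X1) : shr h * shr h' = shr (h + h') := by
  apply AddMonoidHom.ext
  intro y
  obtain ⟨x, t, rfl⟩ := mk_eta1 y
  show shr h (shr h' (FM.mk x t)) = shr (h + h') (FM.mk x t)
  rw [shr_mk, shr_mk, shr_mk, AddMonoidHom.add_apply]
  congr 1
  abel

theorem shr_zero : shr 0 = 1 := by
  apply AddMonoidHom.ext
  intro y
  obtain ⟨x, t, rfl⟩ := mk_eta1 y
  show (FM.mk (x + (0 : T1 →+ X1) t) t : R1) = FM.mk x t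
  rw [AddMonoidHom.zero_apply, add_zero]

/-- shears as units -/
noncomputable def shU (h : T1 →+ X1) : (AddMonoid.End R1)ˣ where
  val := shr h
  inv := shr (-h)
  val_inv := by rw [shr_mul, add_neg_cancel, shr_zero]
  inv_val := by rw [shr_mul, neg_add_cancel, shr_zero]

theorem shU_rel (h : T1 →+ X1) (a : A0 Jt) : Rel0 iota R1 (shU h, 1) a a := by
  refine ⟨fun y => ?_, ?_⟩
  · obtain ⟨x, t, rfl⟩ := mk_eta1 y
    show shr h (a • (FM.mk x t : R1)) = a • shr h (FM.mk x t : R1)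
    rw [shr_mk, smulE_def, smulE_def, iotaA_f1, iotaA_f1, shr_mk]
    congr 1
    rw [smul_add]
    have h1 : h (a.fst • t) = a.fst • h t := by
      rcases k_cases a.fst with h2 | h2
      · rw [h2, zero_smul, zero_smul, map_zero]
      · rw [h2, one_smul, one_smul]
    rw [h1]
    abel
  · show (1 : BB) * iota a = iota a * 1
    rw [one_mul, mul_one]

/-- shears in the normaliser -/
noncomputable def shN : Multiplicative (T1 →+ X1) →* NN0 iota R1 where
  toFun h := ⟨(shU (Multiplicative.toAdd h), 1),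
    ⟨fun a => ⟨a, shU_rel _ a⟩, fun a => ⟨a, shU_rel _ a⟩⟩⟩
  map_one' := by
    apply Subtype.ext
    refine Prod.ext ?_ rfl
    ext1
    exact shr_zero
  map_mul' h h' := by
    apply Subtype.ext
    refine Prod.ext ?_ ?_
    · ext1
      exact (shr_mul _ _).symm
    · show (1 : BBˣ) = 1 * 1
      rw [one_mul]

theorem shN_mem (h7 : Span7) (h : T1 →+ X1) :
    shN (Multiplicative.ofAdd h) ∈ commutator (NN0 iota R1) := by
  let P : AddSubgroup (T1 →+ X1) :=
    { carrier := {h | shN (Multiplicative.ofAdd h) ∈ commutator (NN0 iota R1)}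
      zero_mem' := by
        show shN (Multiplicative.ofAdd 0) ∈ commutator (NN0 iota R1)
        rw [ofAdd_zero, map_one]
        exact one_mem _
      add_mem' := fun {a b} ha hb => by
        show shN (Multiplicative.ofAdd (a + b)) ∈ commutator (NN0 iota R1)
        rw [ofAdd_add, map_mul]
        exact mul_mem ha hb
      neg_mem' := fun {a} ha => by
        show shN (Multiplicative.ofAdd (-a)) ∈ commutator (NN0 iota R1)
        rw [ofAdd_neg, map_inv]
        exact inv_mem ha }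
  have hP : P = ⊤ := by
    apply h7
    intro γ h
    show shN (Multiplicative.ofAdd (h.comp (t1 (γ : MM)).toAddMonoidHom - h)) ∈
      commutator (NN0 iota R1)
    have e : shN (Multiplicative.ofAdd (h.comp (t1 (γ : MM)).toAddMonoidHom - h)) =
        (sec (Units.map mkM γ))⁻¹ * shN (Multiplicative.ofAdd h) * (sec (Units.map mkM γ)) *
          (shN (Multiplicative.ofAdd h))⁻¹ := by
      rw [← map_inv, ← map_inv, ← map_inv, ← ofAdd_neg]
      apply Subtype.ext
      refine Prod.ext ?_ ?_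
      · ext1
        apply AddMonoidHom.ext
        intro y
        obtain ⟨x, t, rfl⟩ := mk_eta1 y
        show shr (h.comp (t1 (γ : MM)).toAddMonoidHom - h) (FM.mk x t) =
          (mkM ((γ⁻¹ : OO) : MM)).f1 (shr h ((mkM (γ : MM)).f1 (shr (-h) (FM.mk x t))))
        rw [shr_mk, shr_mk, mkM_apply, mkM_apply, mkBB_f1, shr_mk, mkBB_f1, one_smul, one_smul]
        have h1 : t1 ((γ⁻¹ : OO) : MM) (t1 (γ : MM) t) = t := by
          have h2 := t1_mul ((γ⁻¹ : OO) : MM) (γ : MM)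
          rw [Units.inv_mul, t1_one] at h2
          exact (LinearMap.congr_fun h2 t).symm
        rw [h1]
        show (FM.mk (x + (h (t1 (γ : MM) t) - h t)) t : R1) =
          FM.mk (x + -(h t) + 0 + h (t1 (γ : MM) t) + 0) t
        rw [add_zero, add_zero]
        congr 1
        abel
      · ext1
        show (1 : BB) = mkM ((γ⁻¹ : OO) : MM) * 1 * mkM (γ : MM) * 1
        rw [mul_one, mul_one, ← map_mul, Units.inv_mul, map_one]
    rw [e]
    have h3 := Subgroup.commutator_mem_commutator (H₁ := (⊤ : Subgroup (NN0 iota R1)))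
      (H₂ := ⊤) (Subgroup.mem_top (sec (Units.map mkM γ))⁻¹)
      (Subgroup.mem_top (shN (Multiplicative.ofAdd h)))
    have h4 : ∀ a b : NN0 iota R1, a⁻¹ * b * a * b⁻¹ = a⁻¹ * b * a⁻¹⁻¹ * b⁻¹ := by
      intro a b
      rw [inv_inv]
    rw [h4]
    exact h3
  have : h ∈ P := by rw [hP]; trivial
  exact this

theorem sec_mem (γ : OO) : sec (Units.map mkM γ) ∈ commutator (NN0 iota R1) := by
  have h1 : γ ∈ commutator OO := by rw [QO97.OO_perfect]; trivial
  have h2 : (commutator OO).map (sec.comp (Units.map mkM)) ≤ commutator (NN0 iota R1) := by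
    rw [commutator_def, Subgroup.map_commutator, commutator_def]
    exact Subgroup.commutator_mono le_top le_top
  exact h2 ⟨γ, h1, rfl⟩

/-- the unit `1 + η` of `A0` -/
noncomputable def oneAdd (η : Jt) : (A0 Jt)ˣ where
  val := TrivSqZeroExt.inl 1 + TrivSqZeroExt.inr η
  inv := TrivSqZeroExt.inl 1 + TrivSqZeroExt.inr η
  val_inv := by
    apply TrivSqZeroExt.ext
    · simp
    · simp [add_self_QHom]
  inv_val := by
    apply TrivSqZeroExt.ext
    · simp
    · simp [add_self_QHom]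

theorem perfN_field (hS : Shape) (h7 : Span7) (n : NN0 iota R1) :
    ∃ c ∈ commutator (NN0 iota R1), ∃ (m : NN0 iota R1) (a : (A0 Jt)ˣ),
      (∀ x : R1, (m.1.1 : AddMonoid.End R1) x = (a : A0 Jt) • x) ∧
        ((m.1.2 : BBˣ) : BB) = iota a ∧ n = c * m := by
  obtain ⟨h, hh⟩ := shape_n hS n
  obtain ⟨η, hb⟩ := unit_cases n.1.2
  set γ : OO := pN n with hγ
  have hb' : (n.1.2 : BB) = mkBB 1 η (γ : MM) := hb
  let h' : T1 →+ X1 := (h - η.f1.toAddMonoidHom).comp (t1 ((γ⁻¹ : OO) : MM)).toAddMonoidHom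
  refine ⟨shN (Multiplicative.ofAdd h') * sec (Units.map mkM γ),
    mul_mem (shN_mem h7 h') (sec_mem γ), sec (Units.map iota.toMonoidHom (oneAdd η)), oneAdd η,
    fun x => rfl, rfl, ?_⟩
  have h1 : t1 ((γ⁻¹ : OO) : MM) ∘ₗ (t1 (γ : MM)) = LinearMap.id := by
    rw [← t1_mul, Units.inv_mul, t1_one]
  have hio : iota ((oneAdd η : (A0 Jt)ˣ) : A0 Jt) = mkBB 1 η 1 := by
    rw [iota_apply]
    show mkBB (TrivSqZeroExt.inl 1 + TrivSqZeroExt.inr η : A0 Jt).fst
      (TrivSqZeroExt.inl 1 + TrivSqZeroExt.inr η : A0 Jt).snd _ = _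
    simp [oneAdd]
  apply Subtype.ext
  refine Prod.ext ?_ ?_
  · ext1
    apply AddMonoidHom.ext
    intro y
    obtain ⟨x, t, rfl⟩ := mk_eta1 y
    show (n.1.1 : AddMonoid.End R1) (FM.mk x t) =
      shr h' ((mkM (γ : MM)).f1 ((iota ((oneAdd η : (A0 Jt)ˣ) : A0 Jt)).f1 (FM.mk x t)))
    rw [hh, hio, mkBB_f1, mkM_apply, mkBB_f1, shr_mk, one_smul, one_smul]
    have h2 : h' (t1 (γ : MM) (t1 (1 : MM) t)) = h t - η.f1 t := by
      rw [t1_one]
      show (h - η.f1.toAddMonoidHom) (t1 ((γ⁻¹ : OO) : MM) (t1 (γ : MM) t)) = _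
      have h3 := LinearMap.congr_fun h1 t
      have h4 : t1 ((γ⁻¹ : OO) : MM) (t1 (γ : MM) t) = t := h3
      rw [h4]
      rfl
    rw [h2, t1_one]
    show (FM.mk (x + h t) (t1 (γ : MM) t) : R1) =
      FM.mk (x + η.f1 t + 0 + (h t - η.f1 t)) (t1 (γ : MM) t)
    congr 1
    abel
  · ext1
    show (n.1.2 : BB) = 1 * mkM (γ : MM) * iota ((oneAdd η : (A0 Jt)ˣ) : A0 Jt)
    rw [hio, hb', one_mul, mkM_apply, mkBB_mul, one_mul, mul_one, one_smul, QHom.zero_comp,
      add_zero]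

end QA70
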