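import Pool.Agent.Helper70.QA.Bicomm
import Pool.Agent.Helper70.QA.EndX

/-!
# Project AUT (S00834), block A: `Rp = X ⊕ Tp`, the structure of `BB = End Rp`
-/

set_option autoImplicit false

namespace QA70

/-- the inclusion `X → Rp` -/
noncomputable def iX : QHom X Rp where
  f0 := 0
  f1 := FM.inl
  f2 := FM.inl
  f3 := 0
  f4 := FM.inl
  hb l x := by
    show (FM.mk (T.dec l x) 0 : R2) = FM.mk (T.dec l x) (bT l 0)
    rw [map_zero]
  hr x := by
    show (FM.mk (rX x) 0 : R2) = FM.mk (rX x) (rT 0)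
    rw [map_zero]
  hlam _ := rfl
  hal _ := rfl
  ha i j x := by
    show (0 : T3) = mkT3 (aF i j 0)
    rw [map_zero, map_zero]
  hc i j x := by
    show (0 : T3) = mkT3 (cF i j 0)
    rw [map_zero, map_zero]
  hu i x := by
    show (0 : T3) = mkT3 (uF i 0)
    rw [map_zero, map_zero]

/-- the projection `Rp → X` -/
noncomputable def pX : QHom Rp X where
  f0 := 0
  f1 := FM.fst
  f2 := FM.fst
  f3 := 0
  f4 := FM.fst
  hb _ _ := rfl
  hr _ := rfl
  hlam _ := rfl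
  hal _ := rfl
  ha _ _ _ := rfl
  hc _ _ _ := rfl
  hu _ _ := rfl

/-- the inclusion `Tp → Rp` -/
noncomputable def iT : QHom Tp Rp where
  f0 := 0
  f1 := FM.inr
  f2 := FM.inr
  f3 := LinearMap.id
  f4 := FM.inr
  hb l x := by
    show (FM.mk 0 (bT l x) : R2) = FM.mk (T.dec l 0) (bT l x)
    rw [map_zero]
  hr x := by
    show (FM.mk 0 (rT x) : R2) = FM.mk (rX 0) (rT x)
    rw [map_zero]
  hlam _ := rfl
  hal _ := rfl
  ha _ _ _ := rfl
  hc _ _ _ := rfl
  hu _ _ := rfl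

/-- the projection `Rp → Tp` -/
noncomputable def pT : QHom Rp Tp where
  f0 := 0
  f1 := FM.snd
  f2 := FM.snd
  f3 := LinearMap.id
  f4 := FM.snd
  hb _ _ := rfl
  hr _ := rfl
  hlam _ := rfl
  hal _ := rfl
  ha _ _ _ := rfl
  hc _ _ _ := rfl
  hu _ _ := rfl

theorem pX_iX : pX.comp iX = QHom.idh X :=
  QHom.ext (FM.to_Z_eq _ _) rfl rfl (FM.to_Z_eq _ _) rfl

theorem pT_iT : pT.comp iT = QHom.idh Tp :=
  QHom.ext (FM.to_Z_eq _ _) rfl rfl rfl rfl

theorem pX_iT : pX.comp iT = 0 :=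
  QHom.ext rfl rfl rfl rfl rfl

theorem pT_iX : pT.comp iX = 0 :=
  QHom.ext rfl rfl rfl rfl rfl

theorem iX_pX_add : iX.comp pX + iT.comp pT = QHom.idh Rp := by
  refine QHom.ext (FM.to_Z_eq _ _) ?_ ?_ ?_ ?_
  · ext x
    show FM.mk (FM.fst x) 0 + FM.mk 0 (FM.snd x) = x
    simp
  · ext x
    show FM.mk (FM.fst x) 0 + FM.mk 0 (FM.snd x) = x
    simp
  · ext x
    show (0 : T3) + x = x
    simp
  · ext x
    show FM.mk (FM.fst x) 0 + FM.mk 0 (FM.snd x) = x
    simp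

/-- the endomorphism `(c, η, γ)` of `Rp = X ⊕ Tp` -/
noncomputable def mkBB (c : k) (η : QHom Tp X) (γ : MM) : BB :=
  c • iX.comp pX + iX.comp (η.comp pT) + iT.comp ((TTp γ).comp pT)

theorem pX_mkBB (c : k) (η : QHom Tp X) (γ : MM) :
    pX.comp (mkBB c η γ) = c • pX + η.comp pT := by
  rw [mkBB, QHom.comp_add, QHom.comp_add, QHom.comp_smul, ← QHom.comp_assoc, pX_iX, QHom.id_comp,
    ← QHom.comp_assoc, pX_iX, QHom.id_comp, ← QHom.comp_assoc, pX_iT, QHom.zero_comp, add_zero]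

theorem pT_mkBB (c : k) (η : QHom Tp X) (γ : MM) :
    pT.comp (mkBB c η γ) = (TTp γ).comp pT := by
  rw [mkBB, QHom.comp_add, QHom.comp_add, QHom.comp_smul, ← QHom.comp_assoc, pT_iX,
    QHom.zero_comp, smul_zero, ← QHom.comp_assoc, pT_iX, QHom.zero_comp, ← QHom.comp_assoc,
    pT_iT, QHom.id_comp, add_zero, zero_add]

theorem mkBB_iX (c : k) (η : QHom Tp X) (γ : MM) : (mkBB c η γ).comp iX = c • iX := by
  rw [mkBB, QHom.add_comp, QHom.add_comp, QHom.smul_comp, QHom.comp_assoc, pX_iX, QHom.comp_id,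
    QHom.comp_assoc, QHom.comp_assoc, pT_iX, QHom.comp_zero, QHom.comp_zero, QHom.comp_assoc,
    QHom.comp_assoc, pT_iX, QHom.comp_zero, QHom.comp_zero, add_zero, add_zero]

theorem mkBB_iT (c : k) (η : QHom Tp X) (γ : MM) :
    (mkBB c η γ).comp iT = iX.comp η + iT.comp (TTp γ) := by
  rw [mkBB, QHom.add_comp, QHom.add_comp, QHom.smul_comp, QHom.comp_assoc, pX_iT, QHom.comp_zero,
    smul_zero, QHom.comp_assoc, QHom.comp_assoc, pT_iT, QHom.comp_id, QHom.comp_assoc,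
    QHom.comp_assoc, pT_iT, QHom.comp_id, zero_add]

/-- homs into `Rp` are determined by their two components -/
theorem hom_Rp_ext {A : QRep} {f g : QHom A Rp} (h1 : pX.comp f = pX.comp g)
    (h2 : pT.comp f = pT.comp g) : f = g := by
  have key : ∀ f : QHom A Rp, f = iX.comp (pX.comp f) + iT.comp (pT.comp f) := by
    intro f
    rw [← QHom.comp_assoc, ← QHom.comp_assoc, ← QHom.add_comp, iX_pX_add, QHom.id_comp]
  rw [key f, key g, h1, h2]

theorem mkBB_mul (c c' : k) (η η' : QHom Tp X) (γ γ' : MM) :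
    mkBB c η γ * mkBB c' η' γ' = mkBB (c * c') (c • η' + η.comp (TTp γ')) (γ * γ') := by
  apply hom_Rp_ext
  · rw [QHom.mul_def, ← QHom.comp_assoc, pX_mkBB, pX_mkBB, QHom.add_comp, QHom.smul_comp, pX_mkBB,
      QHom.comp_assoc, pT_mkBB, QHom.add_comp, smul_add, mul_smul, QHom.smul_comp,
      ← QHom.comp_assoc, add_assoc]
  · rw [QHom.mul_def, ← QHom.comp_assoc, pT_mkBB, pT_mkBB, QHom.comp_assoc, pT_mkBB, TTp_mul]
    rfl

theorem mkBB_add (c c' : k) (η η' : QHom Tp X) (γ γ' : MM) :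
    mkBB c η γ + mkBB c' η' γ' = mkBB (c + c') (η + η') (γ + γ') := by
  apply hom_Rp_ext
  · rw [QHom.comp_add, pX_mkBB, pX_mkBB, pX_mkBB, add_smul, QHom.add_comp]
    abel
  · rw [QHom.comp_add, pT_mkBB, pT_mkBB, pT_mkBB, TTp_add, QHom.add_comp]

theorem mkBB_one : mkBB 1 0 1 = 1 := by
  apply hom_Rp_ext
  · rw [pX_mkBB, one_smul, QHom.zero_comp, add_zero]
    exact (QHom.comp_id pX).symm
  · rw [pT_mkBB, TTp_one]
    rfl

theorem mkBB_inj {c c' : k} {η η' : QHom Tp X} {γ γ' : MM}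
    (h : mkBB c η γ = mkBB c' η' γ') : c = c' ∧ η = η' ∧ γ = γ' := by
  have h1 : c • iX = c' • iX := by rw [← mkBB_iX c η γ, h, mkBB_iX]
  have h2 : c • (QHom.idh X) = c' • (QHom.idh X) := by
    rw [← pX_iX, ← QHom.comp_smul, h1, QHom.comp_smul]
  have h3 : c = c' := by
    have h4 := congrArg (fun f : QHom X X => FM.toK (f.f4 (FM.ofK 1))) h2
    have h5 : ∀ t : k, FM.toK ((t • (QHom.idh X)).f4 (FM.ofK 1)) = t := by
      intro t
      show t * 1 = t
      rw [mul_one]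
    simp only at h4
    rw [h5, h5] at h4
    exact h4
  have h6 : iX.comp η + iT.comp (TTp γ) = iX.comp η' + iT.comp (TTp γ') := by
    rw [← mkBB_iT c η γ, h, mkBB_iT]
  refine ⟨h3, ?_, ?_⟩
  · have h7 := congrArg (fun f => pX.comp f) h6
    simp only [QHom.comp_add, ← QHom.comp_assoc, pX_iX, pX_iT, QHom.id_comp, QHom.zero_comp,
      add_zero] at h7
    exact h7
  · have h7 := congrArg (fun f => pT.comp f) h6
    simp only [QHom.comp_add, ← QHom.comp_assoc, pT_iX, pT_iT, QHom.id_comp, QHom.zero_comp,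
      zero_add] at h7
    exact TTp_injective h7

theorem BB_cases (b : BB) : ∃ c η γ, b = mkBB c η γ := by
  obtain ⟨c, hc⟩ := endX ((pX.comp b).comp iX)
  obtain ⟨γ, hγ⟩ := bicomm ((pT.comp b).comp iT)
  have h0 : (pT.comp b).comp iX = 0 := homXTp _
  refine ⟨c, (pX.comp b).comp iT, γ, ?_⟩
  have key : ∀ f : BB, f = (f.comp iX).comp pX + (f.comp iT).comp pT := by
    intro f
    rw [QHom.comp_assoc, QHom.comp_assoc, ← QHom.comp_add, iX_pX_add, QHom.comp_id]
  have h1 : b.comp iX = c • iX := by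
    apply hom_Rp_ext
    · rw [← QHom.comp_assoc, hc, QHom.comp_smul, pX_iX]
      rfl
    · rw [← QHom.comp_assoc, h0, QHom.comp_smul, pT_iX, smul_zero]
  have h2 : b.comp iT = iX.comp ((pX.comp b).comp iT) + iT.comp (TTp γ) := by
    apply hom_Rp_ext
    · rw [QHom.comp_add, ← QHom.comp_assoc pX iX, pX_iX, QHom.id_comp, ← QHom.comp_assoc pX iT,
        pX_iT, QHom.zero_comp, add_zero]
      rfl
    · rw [QHom.comp_add, ← QHom.comp_assoc pT iX, pT_iX, QHom.zero_comp, ← QHom.comp_assoc pT iT,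
        pT_iT, QHom.id_comp, zero_add, ← hγ]
      rfl
  have h3 : mkBB c ((pX.comp b).comp iT) γ = (b.comp iX).comp pX + (b.comp iT).comp pT := by
    rw [key (mkBB c ((pX.comp b).comp iT) γ), mkBB_iX, mkBB_iT, h1, h2]
  rw [h3]
  exact key b

end QA70
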